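import Pool.Agent.W544.PG.Defs3

/-! Project PG, part G1: stable spaces of forms without large eigenvalues are products of pairings
with forms. -/

set_option autoImplicit false

open Matrix Finset Module

namespace Pool.Agent.W392.PG

open Pool.Agent.W544.PG

noncomputable section

/-! ### the eigenvalues of a sum -/

section ring
open Polynomial

variable {A : Type*} [Ring A] [Algebra ℂ A]

/-- the product of the `X - a`, `|a| ≤ m` -/
def pp (m : ℕ) : ℂ[X] := ∏ a ∈ Finset.Icc (-(m : ℤ)) m, (X - C (a : ℂ))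

theorem pp_dvd (m : ℕ) (e : ℤ) (he : |e| ≤ 1) : pp m ∣ (pp (m + 1)).comp (X + C (e : ℂ)) := by
  have h1 : (pp (m + 1)).comp (X + C (e : ℂ)) =
      ∏ b ∈ (Finset.Icc (-((m + 1 : ℕ) : ℤ)) ((m + 1 : ℕ) : ℤ)).image (fun a => a - e),
        (X - C (b : ℂ)) := by
    unfold pp
    rw [Polynomial.prod_comp, Finset.prod_image (by intro a _ b _ h; simpa using h)]
    refine Finset.prod_congr rfl fun a _ => ?_
    simp only [sub_comp, X_comp, C_comp]
    push_cast
    simp only [map_sub]
    ring
  rw [h1]
  unfold pp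
  refine Finset.prod_dvd_prod_of_subset _ _ _ fun a ha => ?_
  rw [Finset.mem_Icc] at ha
  rw [Finset.mem_image]
  have := abs_le.1 he
  refine ⟨a + e, Finset.mem_Icc.2 ⟨?_, ?_⟩, by ring⟩
  · push_cast; omega
  · push_cast; omega

theorem aeval_mul_eq (T Y E : A) (hc : Commute T Y) (e : ℂ) (hE : Y * E = e • E) (p : ℂ[X]) :
    aeval (T + Y) p * E = aeval (T + algebraMap ℂ A e) p * E := by
  have hpow : ∀ n : ℕ, (T + Y) ^ n * E = (T + algebraMap ℂ A e) ^ n * E := by
    intro n
    induction n with
    | zero => simp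
    | succ n ih =>
      have h1 : Commute (T + Y) (T + algebraMap ℂ A e) := by
        refine Commute.add_left ?_ ?_
        · exact (Commute.refl T).add_right (Algebra.commutes e T).symm
        · exact (hc.symm).add_right (Algebra.commutes e Y).symm
      rw [pow_succ', mul_assoc, ih, ← mul_assoc, (h1.pow_right n).eq, mul_assoc, add_mul, hE,
        pow_succ, mul_assoc, add_mul, Algebra.algebraMap_eq_smul_one, smul_mul_assoc, one_mul]
  induction p using Polynomial.induction_on' with
  | add p q hp hq => rw [map_add, map_add, add_mul, add_mul, hp, hq]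
  | monomial n c =>
    rw [aeval_monomial, aeval_monomial, mul_assoc, mul_assoc, hpow n]

theorem aeval_add_eq_zero (T Y : A) (m : ℕ) (hc : Commute T Y) (hY : Y * Y * Y = Y)
    (hT : aeval T (pp m) = 0) : aeval (T + Y) (pp (m + 1)) = 0 := by
  have key : ∀ (e : ℤ) (E : A), |e| ≤ 1 → Y * E = (e : ℂ) • E →
      aeval (T + Y) (pp (m + 1)) * E = 0 := by
    intro e E he hE
    rw [aeval_mul_eq T Y E hc e hE]
    have h1 : aeval (T + algebraMap ℂ A (e : ℂ)) (pp (m + 1)) = 0 := by
      have h2 : aeval (T + algebraMap ℂ A (e : ℂ)) (pp (m + 1)) =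
          aeval T ((pp (m + 1)).comp (X + C (e : ℂ))) := by
        rw [aeval_comp]
        simp
      rw [h2]
      obtain ⟨q, hq⟩ := pp_dvd m e he
      rw [hq, map_mul, hT, zero_mul]
    rw [h1, zero_mul]
  have k1 := key 1 (Y * Y + Y) (by norm_num) (by
    rw [mul_add, ← mul_assoc, hY]; push_cast; rw [one_smul]; abel)
  have k2 := key (-1) (Y * Y - Y) (by norm_num) (by
    rw [mul_sub, ← mul_assoc, hY]; push_cast; rw [neg_smul, one_smul]; abel)
  have k3 := key 0 (1 - Y * Y) (by norm_num) (by
    rw [mul_sub, ← mul_assoc, hY, mul_one, sub_self]; push_cast; rw [zero_smul])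
  rw [mul_add] at k1
  rw [mul_sub] at k2
  rw [mul_sub, mul_one] at k3
  set R := aeval (T + Y) (pp (m + 1)) with hR
  have h4 : R * (Y * Y) + R * (Y * Y) = 0 := by
    have := congrArg₂ (· + ·) k1 k2
    simp only [add_zero] at this
    rw [← this]; abel
  have h5 : R = R * (Y * Y) := sub_eq_zero.1 k3
  have h6 : R + R = 0 := by rw [← h5] at h4; exact h4
  have h7 : (2 : ℂ) • R = 0 := by rw [two_smul]; exact h6
  exact (smul_eq_zero.1 h7).resolve_left two_ne_zero

end ring

/-! ### the action -/

section action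
variable {n k : ℕ}

/-- the action in one slot -/
def slot (Z : Matrix (Fin n) (Fin n) ℂ) (j : Fin k) :
    ((Fin k → Fin n) → ℂ) →ₗ[ℂ] ((Fin k → Fin n) → ℂ) where
  toFun s := fun J => ∑ l, Z l (J j) * s (Function.update J j l)
  map_add' s t := by
    funext J
    simp only [Pi.add_apply, mul_add, Finset.sum_add_distrib]
  map_smul' c s := by
    funext J
    simp only [Pi.smul_apply, smul_eq_mul, RingHom.id_apply, Finset.mul_sum]
    refine Finset.sum_congr rfl fun l _ => ?_
    ring

theorem slot_apply (Z : Matrix (Fin n) (Fin n) ℂ) (j : Fin k) (s : (Fin k → Fin n) → ℂ)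
    (J : Fin k → Fin n) : slot Z j s J = ∑ l, Z l (J j) * s (Function.update J j l) := rfl

/-- the action as a linear map -/
def actL (Z : Matrix (Fin n) (Fin n) ℂ) :
    ((Fin k → Fin n) → ℂ) →ₗ[ℂ] ((Fin k → Fin n) → ℂ) := ∑ j, slot Z j

theorem actL_apply (Z : Matrix (Fin n) (Fin n) ℂ) (s : (Fin k → Fin n) → ℂ) :
    actL Z s = act Z s := by
  funext J
  unfold actL act
  rw [LinearMap.sum_apply, Finset.sum_apply]
  rfl

theorem slot_slot (Z W : Matrix (Fin n) (Fin n) ℂ) (j : Fin k) :
    slot Z j * slot W j = slot (W * Z) j := by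
  refine LinearMap.ext fun s => ?_
  funext J
  show slot Z j (slot W j s) J = slot (W * Z) j s J
  rw [slot_apply, slot_apply]
  simp only [slot_apply, Function.update_self, Function.update_idem, Finset.mul_sum]
  rw [Finset.sum_comm]
  refine Finset.sum_congr rfl fun m _ => ?_
  rw [Matrix.mul_apply, Finset.sum_mul]
  refine Finset.sum_congr rfl fun l _ => ?_
  ring

theorem slot_comm (Z W : Matrix (Fin n) (Fin n) ℂ) (i j : Fin k) (hij : i ≠ j) :
    Commute (slot Z i) (slot W j) := by
  refine LinearMap.ext fun s => ?_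
  funext J
  show slot Z i (slot W j s) J = slot W j (slot Z i s) J
  simp only [slot_apply, Function.update_of_ne hij, Function.update_of_ne hij.symm, Finset.mul_sum]
  rw [Finset.sum_comm]
  refine Finset.sum_congr rfl fun m _ => Finset.sum_congr rfl fun l _ => ?_
  rw [Function.update_comm hij]
  ring

theorem actL_pp (X : Matrix (Fin n) (Fin n) ℂ) (hX : X * X * X = X) :
    Polynomial.aeval (actL (k := k) X) (pp k) = 0 := by
  have h3 : ∀ j : Fin k, slot X j * slot X j * slot X j = slot X j := by
    intro j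
    rw [slot_slot, slot_slot, ← mul_assoc, hX]
  have key : ∀ S : Finset (Fin k),
      Polynomial.aeval (∑ j ∈ S, slot X j) (pp S.card) = 0 := by
    intro S
    induction S using Finset.induction_on with
    | empty =>
      unfold pp
      simp
    | insert a S ha ih =>
      rw [Finset.card_insert_of_notMem ha, Finset.sum_insert ha, add_comm]
      refine aeval_add_eq_zero _ _ _ ?_ (h3 a) ih
      refine Commute.sum_left _ _ _ fun j hj => slot_comm X X j a ?_
      rintro rfl
      exact ha hj
  have := key Finset.univ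
  rwa [Finset.card_univ, Fintype.card_fin] at this

/-- the exchange of two indices -/
theorem swp (j : Fin k) (f : (Fin k → Fin n) → Fin n → ℂ) :
    ∑ J, ∑ l, f J l = ∑ J, ∑ l, f (Function.update J j l) (J j) := by
  have hinv : Function.Involutive
      (fun q : (Fin k → Fin n) × Fin n => (Function.update q.1 j q.2, q.1 j)) := by
    rintro ⟨J, l⟩
    simp
  have h1 : ∑ J, ∑ l, f J l = ∑ q : (Fin k → Fin n) × Fin n, f q.1 q.2 :=
    (Fintype.sum_prod_type (fun q : (Fin k → Fin n) × Fin n => f q.1 q.2)).symm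
  have h2 : ∑ J, ∑ l, f (Function.update J j l) (J j) =
      ∑ q : (Fin k → Fin n) × Fin n, f (Function.update q.1 j q.2) (q.1 j) :=
    (Fintype.sum_prod_type
      (fun q : (Fin k → Fin n) × Fin n => f (Function.update q.1 j q.2) (q.1 j))).symm
  rw [h1, h2]
  exact (Equiv.sum_comp (hinv.toPerm _) (fun q : (Fin k → Fin n) × Fin n => f q.1 q.2)).symm

theorem adj (Z : Matrix (Fin n) (Fin n) ℂ) (hZ : Zᵀ = -Z) (s t : (Fin k → Fin n) → ℂ) :
    ∑ J, act Z s J * t J = -∑ J, s J * act Z t J := by
  have hz : ∀ a b, Z a b = -Z b a := by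
    intro a b
    have := congrFun (congrFun hZ b) a
    simpa using this
  unfold act
  have h1 : ∑ J, (∑ j, ∑ l, Z l (J j) * s (Function.update J j l)) * t J =
      ∑ j, ∑ J, ∑ l, Z l (J j) * s (Function.update J j l) * t J := by
    rw [Finset.sum_comm]
    refine Finset.sum_congr rfl fun J _ => ?_
    rw [Finset.sum_mul]
    refine Finset.sum_congr rfl fun j _ => ?_
    rw [Finset.sum_mul]
  have h2 : ∑ J, s J * (∑ j, ∑ l, Z l (J j) * t (Function.update J j l)) =
      ∑ j, ∑ J, ∑ l, s J * (Z l (J j) * t (Function.update J j l)) := by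
    rw [Finset.sum_comm]
    refine Finset.sum_congr rfl fun J _ => ?_
    rw [Finset.mul_sum]
    refine Finset.sum_congr rfl fun j _ => ?_
    rw [Finset.mul_sum]
  rw [h1, h2, ← Finset.sum_neg_distrib]
  refine Finset.sum_congr rfl fun j _ => ?_
  rw [swp j (fun J l => Z l (J j) * s (Function.update J j l) * t J), ← Finset.sum_neg_distrib]
  refine Finset.sum_congr rfl fun J _ => ?_
  rw [← Finset.sum_neg_distrib]
  refine Finset.sum_congr rfl fun l _ => ?_
  rw [Function.update_self, Function.update_idem, Function.update_eq_self, hz (J j) l]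
  ring

/-! ### pairings -/

/-- product of pairings -/
def dl (σ : Fin k → Fin k) (J : Fin k → Fin n) : ℂ :=
  ∏ j with j < σ j, if J j = J (σ j) then 1 else 0

theorem dl_eq (σ : Fin k → Fin k) (hσ : ∀ j, σ (σ j) = j) (J : Fin k → Fin n) :
    dl σ J = if ∀ j, J (σ j) = J j then 1 else 0 := by
  unfold dl
  split_ifs with h
  · exact Finset.prod_eq_one fun j _ => if_pos (h j).symm
  · push Not at h
    obtain ⟨j, hj⟩ := h
    rcases lt_trichotomy j (σ j) with h1 | h1 | h1
    · exact Finset.prod_eq_zero (Finset.mem_filter.2 ⟨Finset.mem_univ j, h1⟩)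
        (if_neg fun e => hj e.symm)
    · exact absurd (by rw [← h1]) hj
    · refine Finset.prod_eq_zero (i := σ j) (Finset.mem_filter.2 ⟨Finset.mem_univ _, ?_⟩) (if_neg ?_)
      · rw [hσ]; exact h1
      · rw [hσ]; exact hj

/-- the function depends only on the fixed variables -/
def Dep (σ : Fin k → Fin k) (u : (Fin k → Fin n) → ℂ) : Prop :=
  ∀ J J', (∀ j, σ j = j → J j = J' j) → u J = u J'

/-- the action on the other factor -/
def up (Z : Matrix (Fin n) (Fin n) ℂ) (σ : Fin k → Fin k) (u : (Fin k → Fin n) → ℂ) :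
    (Fin k → Fin n) → ℂ := fun J => ∑ j with σ j = j, ∑ l, Z l (J j) * u (Function.update J j l)

theorem up_dep (Z : Matrix (Fin n) (Fin n) ℂ) (σ : Fin k → Fin k) (u : (Fin k → Fin n) → ℂ)
    (hu : Dep σ u) : Dep σ (up Z σ u) := by
  intro J J' h
  unfold up
  refine Finset.sum_congr rfl fun j hj => Finset.sum_congr rfl fun l _ => ?_
  rw [Finset.mem_filter] at hj
  rw [h j hj.2]
  congr 1
  apply hu
  intro i hi
  by_cases hij : i = j
  · subst hij; simp
  · rw [Function.update_of_ne hij, Function.update_of_ne hij, h i hi]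

theorem act_dl (Z : Matrix (Fin n) (Fin n) ℂ) (hZ : Zᵀ = -Z) (σ : Fin k → Fin k)
    (hσ : ∀ j, σ (σ j) = j) (u : (Fin k → Fin n) → ℂ) (hu : Dep σ u) :
    act Z (fun J => dl σ J * u J) = fun J => dl σ J * up Z σ u J := by
  have hz : ∀ a b, Z a b = -Z b a := by
    intro a b
    have := congrFun (congrFun hZ b) a
    simpa using this
  funext J
  unfold act
  rw [← Finset.sum_filter_add_sum_filter_not Finset.univ (fun j => σ j = j)]
  have h1 : ∑ j with σ j = j, ∑ l, Z l (J j) *
      (dl σ (Function.update J j l) * u (Function.update J j l)) = dl σ J * up Z σ u J := by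
    unfold up
    rw [Finset.mul_sum]
    refine Finset.sum_congr rfl fun j hj => ?_
    rw [Finset.mem_filter] at hj
    rw [Finset.mul_sum]
    refine Finset.sum_congr rfl fun l _ => ?_
    have h2 : dl σ (Function.update J j l) = dl σ J := by
      rw [dl_eq σ hσ, dl_eq σ hσ]
      have h3 : (∀ i, Function.update J j l (σ i) = Function.update J j l i) ↔
          ∀ i, J (σ i) = J i := by
        constructor
        · intro h i
          by_cases hi : i = j
          · subst hi; rw [hj.2]
          · have h4 : σ i ≠ j := by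
              intro h5
              apply hi
              rw [← hσ i, h5, hj.2]
            have h6 := h i
            rwa [Function.update_of_ne hi, Function.update_of_ne h4] at h6
        · intro h i
          by_cases hi : i = j
          · subst hi; rw [hj.2]
          · have h4 : σ i ≠ j := by
              intro h5
              apply hi
              rw [← hσ i, h5, hj.2]
            rw [Function.update_of_ne hi, Function.update_of_ne h4]
            exact h i
      simp only [h3]
    rw [h2]
    ring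
  have h2 : ∑ j with ¬ σ j = j, ∑ l, Z l (J j) *
      (dl σ (Function.update J j l) * u (Function.update J j l)) = 0 := by
    -- the value of a term
    have hterm : ∀ j, σ j ≠ j → ∑ l, Z l (J j) *
        (dl σ (Function.update J j l) * u (Function.update J j l)) =
        Z (J (σ j)) (J j) * ((if ∀ i, i ≠ j → i ≠ σ j → J (σ i) = J i then 1 else 0) * u J) := by
      intro j hj
      have hcond : ∀ l, (∀ i, Function.update J j l (σ i) = Function.update J j l i) ↔
          (l = J (σ j) ∧ ∀ i, i ≠ j → i ≠ σ j → J (σ i) = J i) := by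
        intro l
        constructor
        · intro h
          refine ⟨?_, fun i hi hi' => ?_⟩
          · have h3 := h j
            rw [Function.update_self, Function.update_of_ne hj] at h3
            exact h3.symm
          · have h3 := h i
            have h4 : σ i ≠ j := fun h5 => hi' (by rw [← h5, hσ])
            rwa [Function.update_of_ne hi, Function.update_of_ne h4] at h3
        · rintro ⟨h3, h4⟩ i
          by_cases hi : i = j
          · subst hi
            rw [Function.update_self, Function.update_of_ne hj]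
            exact h3.symm
          · by_cases hi' : i = σ j
            · subst hi'
              rw [hσ, Function.update_self, Function.update_of_ne hj]
              exact h3
            · have h5 : σ i ≠ j := fun h5 => hi' (by rw [← h5, hσ])
              rw [Function.update_of_ne hi, Function.update_of_ne h5]
              exact h4 i hi hi'
      rw [Finset.sum_eq_single (J (σ j))]
      · have h3 : u (Function.update J j (J (σ j))) = u J := by
          apply hu
          intro i hi
          have : i ≠ j := by rintro rfl; exact hj hi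
          rw [Function.update_of_ne this]
        rw [h3, dl_eq σ hσ]
        simp only [hcond, true_and]
      · intro l _ hl
        rw [dl_eq σ hσ, if_neg, zero_mul, mul_zero]
        rw [hcond]
        exact fun h => hl h.1
      · intro h
        exact absurd (Finset.mem_univ _) h
    refine Finset.sum_involution (fun j _ => σ j) ?_ ?_ ?_ ?_
    · intro j hj
      rw [Finset.mem_filter] at hj
      have hj' : σ (σ j) ≠ σ j := by rw [hσ]; exact fun h => hj.2 h.symm
      rw [hterm j hj.2, hterm (σ j) hj', hσ]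
      have h3 : (∀ i, i ≠ σ j → i ≠ j → J (σ i) = J i) ↔
          ∀ i, i ≠ j → i ≠ σ j → J (σ i) = J i :=
        ⟨fun h i h1 h2 => h i h2 h1, fun h i h1 h2 => h i h2 h1⟩
      simp only [h3]
      rw [hz (J j) (J (σ j))]
      ring
    · intro j hj _
      rw [Finset.mem_filter] at hj
      exact hj.2
    · intro j hj
      rw [Finset.mem_filter] at hj ⊢
      refine ⟨Finset.mem_univ _, ?_⟩
      rw [hσ]
      exact fun h => hj.2 h.symm
    · intro j hj
      exact hσ j
  rw [h1, h2, add_zero]

/-! ### products of pairings and forms -/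

/-- the bilinear form -/
def Bf (n k : ℕ) : LinearMap.BilinForm ℂ ((Fin k → Fin n) → ℂ) :=
  LinearMap.mk₂ ℂ (fun s t => ∑ J, s J * t J)
    (by intro a b c; simp only [Pi.add_apply, add_mul, Finset.sum_add_distrib])
    (by intro c a b; simp only [Pi.smul_apply, smul_eq_mul, mul_assoc, Finset.mul_sum])
    (by intro a b c; simp only [Pi.add_apply, mul_add, Finset.sum_add_distrib])
    (by
      intro c a b
      simp only [Pi.smul_apply, smul_eq_mul, Finset.mul_sum]
      refine Finset.sum_congr rfl fun J _ => ?_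
      ring)

theorem Bf_apply (s t : (Fin k → Fin n) → ℂ) : Bf n k s t = ∑ J, s J * t J := rfl

theorem gen_mem {l : ℕ} (σ : Fin k → Fin k) (hσ : ∀ j, σ (σ j) = j) (u : (Fin k → Fin n) → ℂ)
    (hu : Dep σ u) (hl : 2 * l ≤ (univ.filter fun j => σ j ≠ j).card) :
    (fun J => dl σ J * u J) ∈ insC n k l :=
  Submodule.subset_span ⟨σ, u, hσ, hl, hu, fun _ => rfl⟩

theorem insC_act {l : ℕ} (Z : Matrix (Fin n) (Fin n) ℂ) (hZ : Zᵀ = -Z)
    {s : (Fin k → Fin n) → ℂ} (hs : s ∈ insC n k l) : act Z s ∈ insC n k l := by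
  have h : insC n k l ≤ (insC n k l).comap (actL Z) := by
    conv_lhs => unfold insC
    rw [Submodule.span_le]
    rintro s ⟨σ, u, hσ, hl, hu, hs⟩
    have e : s = fun J => dl σ J * u J := funext hs
    show actL Z s ∈ insC n k l
    rw [actL_apply, e, act_dl Z hZ σ hσ u hu]
    exact gen_mem σ hσ _ (up_dep Z σ u hu) hl
  have := h hs
  rwa [Submodule.mem_comap, actL_apply] at this

theorem dl_conj (σ : Fin k → Fin k) (J : Fin k → Fin n) : (starRingEnd ℂ) (dl σ J) = dl σ J := by
  unfold dl
  rw [map_prod]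
  refine Finset.prod_congr rfl fun j _ => ?_
  split_ifs <;> simp

theorem insC_conj {l : ℕ} {s : (Fin k → Fin n) → ℂ} (hs : s ∈ insC n k l) :
    (fun J => (starRingEnd ℂ) (s J)) ∈ insC n k l := by
  unfold insC at hs
  induction hs using Submodule.span_induction with
  | mem s h =>
    obtain ⟨σ, u, hσ, hl, hu, hs⟩ := h
    have e : (fun J => (starRingEnd ℂ) (s J)) = fun J => dl σ J * (starRingEnd ℂ) (u J) := by
      funext J
      rw [hs J, map_mul]
      congr 1
      exact dl_conj σ J
    rw [e]
    exact gen_mem σ hσ _ (fun J J' h => by rw [hu J J' h]) hl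
  | zero =>
    have : (fun J : Fin k → Fin n => (starRingEnd ℂ) ((0 : (Fin k → Fin n) → ℂ) J)) = 0 := by
      funext J; simp
    rw [this]
    exact Submodule.zero_mem _
  | add a b _ _ h1 h2 =>
    have := Submodule.add_mem _ h1 h2
    convert this using 1
    funext J
    simp
  | smul c a _ h1 =>
    have := Submodule.smul_mem _ ((starRingEnd ℂ) c) h1
    convert this using 1
    funext J
    simp

theorem insC_compl (l : ℕ) : IsCompl (insC n k l) ((Bf n k).orthogonal (insC n k l)) := by
  have key : ∀ x ∈ insC n k l, (∀ y ∈ insC n k l, Bf n k x y = 0) → x = 0 := by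
    intro x hx h
    have h1 := h _ (insC_conj hx)
    rw [Bf_apply] at h1
    have h2 : ∑ J, Complex.normSq (x J) = 0 := by
      have h3 : ((∑ J, Complex.normSq (x J) : ℝ) : ℂ) = 0 := by
        rw [← h1]
        push_cast
        refine Finset.sum_congr rfl fun J _ => ?_
        rw [Complex.mul_conj]
      exact_mod_cast h3
    funext J
    have h3 := (Finset.sum_eq_zero_iff_of_nonneg (fun J _ => Complex.normSq_nonneg (x J))).1 h2 J
      (Finset.mem_univ J)
    exact Complex.normSq_eq_zero.1 h3
  have hsymm : ∀ x y, Bf n k x y = Bf n k y x := by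
    intro x y
    rw [Bf_apply, Bf_apply]
    refine Finset.sum_congr rfl fun J _ => ?_
    ring
  refine LinearMap.BilinForm.isCompl_orthogonal_of_restrict_nondegenerate ?_ ⟨?_, ?_⟩
  · intro x y h
    rw [hsymm]
    exact h
  · rintro ⟨x, hx⟩ h
    exact Subtype.ext (key x hx fun y hy => h ⟨y, hy⟩)
  · rintro ⟨x, hx⟩ h
    exact Subtype.ext (key x hx fun y hy => by rw [hsymm]; exact h ⟨y, hy⟩)

theorem orth_act {l : ℕ} (Z : Matrix (Fin n) (Fin n) ℂ) (hZ : Zᵀ = -Z)
    {s : (Fin k → Fin n) → ℂ} (hs : s ∈ (Bf n k).orthogonal (insC n k l)) :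
    act Z s ∈ (Bf n k).orthogonal (insC n k l) := by
  rw [LinearMap.BilinForm.mem_orthogonal_iff] at hs ⊢
  intro t ht
  show Bf n k t (act Z s) = 0
  have h1 := hs _ (insC_act Z hZ ht)
  have h2 : Bf n k (act Z t) s = 0 := h1
  rw [Bf_apply] at h2 ⊢
  rw [adj Z hZ t s] at h2
  exact neg_eq_zero.1 h2

/-! ### contractions -/

/-- indicator -/
def ind {r : ℕ} (ρ : Fin r → Fin k) (K : Fin r → Fin n) (J : Fin k → Fin n) : ℂ :=
  if ∀ i, J (ρ i) = K i then 1 else 0

/-- contraction of the pairs of `σ` -/
def cn {r : ℕ} (σ : Fin k → Fin k) (ρ : Fin r → Fin k) :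
    ((Fin k → Fin n) → ℂ) →ₗ[ℂ] ((Fin r → Fin n) → ℂ) where
  toFun b := fun K => ∑ J, dl σ J * ind ρ K J * b J
  map_add' a b := by
    funext K
    simp only [Pi.add_apply, mul_add, Finset.sum_add_distrib]
  map_smul' c b := by
    funext K
    simp only [Pi.smul_apply, smul_eq_mul, RingHom.id_apply, Finset.mul_sum]
    refine Finset.sum_congr rfl fun J _ => ?_
    ring

theorem cn_apply {r : ℕ} (σ : Fin k → Fin k) (ρ : Fin r → Fin k) (b : (Fin k → Fin n) → ℂ)
    (K : Fin r → Fin n) : cn σ ρ b K = ∑ J, dl σ J * ind ρ K J * b J := rfl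

theorem ind_dep {r : ℕ} (σ : Fin k → Fin k) (ρ : Fin r → Fin k)
    (hfix : ∀ j, σ j = j ↔ ∃ i, ρ i = j) (K : Fin r → Fin n) : Dep σ (ind ρ K) := by
  intro J J' h
  unfold ind
  have : (∀ i, J (ρ i) = K i) ↔ ∀ i, J' (ρ i) = K i := by
    constructor
    · intro h1 i
      rw [← h (ρ i) ((hfix _).2 ⟨i, rfl⟩)]
      exact h1 i
    · intro h1 i
      rw [h (ρ i) ((hfix _).2 ⟨i, rfl⟩)]
      exact h1 i
  simp only [this]

theorem cn_act {r : ℕ} (Z : Matrix (Fin n) (Fin n) ℂ) (hZ : Zᵀ = -Z) (σ : Fin k → Fin k)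
    (hσ : ∀ j, σ (σ j) = j) (ρ : Fin r → Fin k) (hρ : Function.Injective ρ)
    (hfix : ∀ j, σ j = j ↔ ∃ i, ρ i = j) (b : (Fin k → Fin n) → ℂ) :
    cn σ ρ (act Z b) = act Z (cn σ ρ b) := by
  have hz : ∀ a b, Z a b = -Z b a := by
    intro a b
    have := congrFun (congrFun hZ b) a
    simpa using this
  funext K
  rw [cn_apply]
  have h1 := adj Z hZ (fun J => dl σ J * ind ρ K J) b
  rw [act_dl Z hZ σ hσ _ (ind_dep σ ρ hfix K)] at h1
  have h2 : ∑ J, dl σ J * ind ρ K J * act Z b J = ∑ J, dl σ J * (-up Z σ (ind ρ K) J) * b J := by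
    have h3 : ∑ J, dl σ J * ind ρ K J * act Z b J = -∑ J, dl σ J * up Z σ (ind ρ K) J * b J := by
      rw [h1, neg_neg]
    rw [h3, ← Finset.sum_neg_distrib]
    refine Finset.sum_congr rfl fun J _ => ?_
    ring
  rw [h2]
  have h3 : act Z (cn σ ρ b) K =
      ∑ J, dl σ J * (∑ i, ∑ l, Z l (K i) * ind ρ (Function.update K i l) J) * b J := by
    unfold act
    simp only [cn_apply]
    simp only [Finset.mul_sum, Finset.sum_mul]
    rw [Finset.sum_comm]
    conv_lhs =>
      rw [Finset.sum_comm]
    have e1 : ∀ i : Fin r, ∑ l, ∑ J, Z l (K i) * (dl σ J * ind ρ (Function.update K i l) J * b J) =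
        ∑ J, ∑ l, dl σ J * (Z l (K i) * ind ρ (Function.update K i l) J) * b J := by
      intro i
      rw [Finset.sum_comm]
      refine Finset.sum_congr rfl fun J _ => Finset.sum_congr rfl fun l _ => ?_
      ring
    rw [Finset.sum_congr rfl fun i _ => e1 i, Finset.sum_comm]
  rw [h3]
  refine Finset.sum_congr rfl fun J _ => ?_
  congr 2
  have h4 : up Z σ (ind ρ K) J = ∑ i, ∑ l, Z l (J (ρ i)) * ind ρ K (Function.update J (ρ i) l) := by
    unfold up
    have h5 : (Finset.univ.filter fun j => σ j = j) = Finset.univ.image ρ := by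
      ext j
      rw [Finset.mem_filter, Finset.mem_image, hfix]
      simp
    rw [h5, Finset.sum_image (fun a _ b _ h => hρ h)]
  rw [h4, ← Finset.sum_neg_distrib]
  refine Finset.sum_congr rfl fun i _ => ?_
  have c1 : ∀ l, (∀ i', Function.update J (ρ i) l (ρ i') = K i') ↔
      (l = K i ∧ ∀ i', i' ≠ i → J (ρ i') = K i') := by
    intro l
    constructor
    · intro h
      refine ⟨?_, fun i' hi' => ?_⟩
      · have := h i
        rwa [Function.update_self] at this
      · have := h i'
        rwa [Function.update_of_ne (fun e => hi' (hρ e))] at this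
    · rintro ⟨h, h'⟩ i'
      by_cases hi' : i' = i
      · subst hi'
        rw [Function.update_self]
        exact h
      · rw [Function.update_of_ne (fun e => hi' (hρ e))]
        exact h' i' hi'
  have c2 : ∀ l, (∀ i', J (ρ i') = Function.update K i l i') ↔
      (l = J (ρ i) ∧ ∀ i', i' ≠ i → J (ρ i') = K i') := by
    intro l
    constructor
    · intro h
      refine ⟨?_, fun i' hi' => ?_⟩
      · have := h i
        rw [Function.update_self] at this
        exact this.symm
      · have := h i'
        rwa [Function.update_of_ne hi'] at this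
    · rintro ⟨h, h'⟩ i'
      by_cases hi' : i' = i
      · subst hi'
        rw [Function.update_self]
        exact h.symm
      · rw [Function.update_of_ne hi']
        exact h' i' hi'
  rw [Finset.sum_eq_single (K i), Finset.sum_eq_single (J (ρ i))]
  · unfold ind
    simp only [c1, c2, true_and]
    rw [hz (K i) (J (ρ i))]
    ring
  · intro l _ hl
    unfold ind
    rw [if_neg, mul_zero]
    rw [c2]
    exact fun h => hl h.1
  · intro h
    exact absurd (Finset.mem_univ _) h
  · intro l _ hl
    unfold ind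
    rw [if_neg, mul_zero]
    rw [c1]
    exact fun h => hl h.1
  · intro h
    exact absurd (Finset.mem_univ _) h

theorem cn_orth {r l : ℕ} (σ : Fin k → Fin k)
    (hσ : ∀ j, σ (σ j) = j) (ρ : Fin r → Fin k)
    (hfix : ∀ j, σ j = j ↔ ∃ i, ρ i = j) (b : (Fin k → Fin n) → ℂ)
    (hl : 2 * l ≤ (univ.filter fun j => σ j ≠ j).card)
    (hb : b ∈ (Bf n k).orthogonal (insC n k l)) : cn σ ρ b = 0 := by
  funext K
  rw [cn_apply]
  rw [LinearMap.BilinForm.mem_orthogonal_iff] at hb
  exact hb _ (gen_mem σ hσ _ (ind_dep σ ρ hfix K) hl)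

/-- one more pair -/
theorem more {r : ℕ} (σ : Fin k → Fin k)
    (hσ : ∀ j, σ (σ j) = j) (ρ : Fin r → Fin k) (hρ : Function.Injective ρ)
    (hfix : ∀ j, σ j = j ↔ ∃ i, ρ i = j) (b : (Fin k → Fin n) → ℂ) (a a' : Fin r) (haa : a ≠ a')
    (K : Fin r → Fin n)
    (hne : ∑ m, cn σ ρ b (Function.update (Function.update K a m) a' m) ≠ 0) :
    ∃ (r' : ℕ) (σ' : Fin k → Fin k) (ρ' : Fin r' → Fin k), r' + 2 = r ∧ (∀ j, σ' (σ' j) = j) ∧
      Function.Injective ρ' ∧ (∀ j, σ' j = j ↔ ∃ i, ρ' i = j) ∧ cn σ' ρ' b ≠ 0 := by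
  classical
  have hra : ρ a ≠ ρ a' := fun e => haa (hρ e)
  have hfa : σ (ρ a) = ρ a := (hfix _).2 ⟨a, rfl⟩
  have hfa' : σ (ρ a') = ρ a' := (hfix _).2 ⟨a', rfl⟩
  set σ' : Fin k → Fin k := fun j => if j = ρ a then ρ a' else if j = ρ a' then ρ a else σ j
    with hσ'
  have s1 : σ' (ρ a) = ρ a' := by rw [hσ']; simp
  have s2 : σ' (ρ a') = ρ a := by rw [hσ']; simp [hra.symm]
  have s3 : ∀ j, j ≠ ρ a → j ≠ ρ a' → σ' j = σ j := by
    intro j h1 h2
    rw [hσ']
    simp only [if_neg h1, if_neg h2]
  have s4 : ∀ j, j ≠ ρ a → j ≠ ρ a' → σ j ≠ ρ a ∧ σ j ≠ ρ a' := by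
    intro j h1 h2
    refine ⟨fun h => h1 ?_, fun h => h2 ?_⟩
    · rw [← hσ j, h, hfa]
    · rw [← hσ j, h, hfa']
  have hinv : ∀ j, σ' (σ' j) = j := by
    intro j
    by_cases h1 : j = ρ a
    · rw [h1, s1, s2]
    · by_cases h2 : j = ρ a'
      · rw [h2, s2, s1]
      · rw [s3 j h1 h2, s3 _ (s4 j h1 h2).1 (s4 j h1 h2).2, hσ]
  have hfix' : ∀ j, σ' j = j ↔ (j ≠ ρ a ∧ j ≠ ρ a' ∧ ∃ i, ρ i = j) := by
    intro j
    by_cases h1 : j = ρ a
    · rw [h1, s1]
      exact ⟨fun h => absurd h.symm hra, fun h => absurd rfl h.1⟩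
    · by_cases h2 : j = ρ a'
      · rw [h2, s2]
        exact ⟨fun h => absurd h hra, fun h => absurd rfl h.2.1⟩
      · rw [s3 j h1 h2, hfix]
        exact ⟨fun h => ⟨h1, h2, h⟩, fun h => h.2.2⟩
  set F : Finset (Fin k) := ((Finset.univ.image ρ).erase (ρ a)).erase (ρ a') with hF
  have hFmem : ∀ j, j ∈ F ↔ σ' j = j := by
    intro j
    rw [hF, Finset.mem_erase, Finset.mem_erase, Finset.mem_image, hfix']
    constructor
    · rintro ⟨h1, h2, i, _, h3⟩
      exact ⟨h2, h1, i, h3⟩
    · rintro ⟨h1, h2, i, h3⟩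
      exact ⟨h2, h1, i, Finset.mem_univ _, h3⟩
  have hFcard : F.card + 2 = r := by
    have h1 : ρ a' ∈ (Finset.univ.image ρ).erase (ρ a) :=
      Finset.mem_erase.2 ⟨hra.symm, Finset.mem_image_of_mem _ (Finset.mem_univ _)⟩
    have h2 : ρ a ∈ Finset.univ.image ρ := Finset.mem_image_of_mem _ (Finset.mem_univ _)
    have h3 := Finset.card_erase_add_one h1
    have h4 := Finset.card_erase_add_one h2
    have h5 : (Finset.univ.image ρ).card = r := by
      rw [Finset.card_image_of_injective _ hρ, Finset.card_univ, Fintype.card_fin]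
    rw [hF]
    omega
  set ρ' : Fin F.card → Fin k := fun i => F.orderEmbOfFin rfl i with hρ'
  have hρ'i : Function.Injective ρ' := (F.orderEmbOfFin rfl).injective
  have hρ'r : ∀ j, j ∈ F ↔ ∃ i, ρ' i = j := by
    intro j
    have := Finset.range_orderEmbOfFin F rfl
    have h1 : j ∈ Set.range (F.orderEmbOfFin rfl) ↔ j ∈ (F : Set (Fin k)) := by rw [this]
    rw [← Finset.mem_coe, ← h1]
    rfl
  refine ⟨F.card, σ', ρ', hFcard, hinv, hρ'i, fun j => by rw [← hFmem, hρ'r], fun h0 => hne ?_⟩
  -- the preimages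
  have hpre : ∀ i' : Fin F.card, ∃ i : Fin r, ρ i = ρ' i' := by
    intro i'
    have h1 : ρ' i' ∈ F := (hρ'r _).2 ⟨i', rfl⟩
    rw [hFmem, hfix'] at h1
    exact h1.2.2
  choose g hg using hpre
  have hval := congrFun h0 (fun i' => K (g i'))
  rw [cn_apply] at hval
  have hval' : ∑ J, dl σ' J * ind ρ' (fun i' => K (g i')) J * b J = 0 := hval
  rw [← hval']
  simp only [cn_apply]
  rw [Finset.sum_comm]
  refine Finset.sum_congr rfl fun J _ => ?_
  rw [← Finset.sum_mul, ← Finset.mul_sum]
  congr 1
  rw [dl_eq σ hσ, dl_eq σ' hinv]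
  have c1 : (∀ j, J (σ' j) = J j) ↔ ((∀ j, J (σ j) = J j) ∧ J (ρ a) = J (ρ a')) := by
    constructor
    · intro h
      refine ⟨fun j => ?_, ?_⟩
      · by_cases h1 : j = ρ a
        · rw [h1, hfa]
        · by_cases h2 : j = ρ a'
          · rw [h2, hfa']
          · rw [← s3 j h1 h2]; exact h j
      · have := h (ρ a')
        rwa [s2] at this
    · rintro ⟨h, h'⟩ j
      by_cases h1 : j = ρ a
      · rw [h1, s1]; exact h'.symm
      · by_cases h2 : j = ρ a'
        · rw [h2, s2]; exact h'
        · rw [s3 j h1 h2]; exact h j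
  have c2 : (∀ i', J (ρ' i') = K (g i')) ↔ ∀ i, i ≠ a → i ≠ a' → J (ρ i) = K i := by
    constructor
    · intro h i h1 h2
      have h3 : ρ i ∈ F := by
        rw [hFmem, hfix']
        exact ⟨fun e => h1 (hρ e), fun e => h2 (hρ e), i, rfl⟩
      obtain ⟨i', hi'⟩ := (hρ'r _).1 h3
      have h4 : g i' = i := hρ (by rw [hg, hi'])
      have h5 := h i'
      rwa [hi', h4] at h5
    · intro h i'
      have h3 : ρ' i' ∈ F := (hρ'r _).2 ⟨i', rfl⟩
      rw [hFmem, hfix'] at h3
      rw [← hg]
      refine h _ ?_ ?_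
      · intro e
        exact h3.1 (by rw [← hg, e])
      · intro e
        exact h3.2.1 (by rw [← hg, e])
  have c3 : ∀ m, (∀ i, J (ρ i) = Function.update (Function.update K a m) a' m i) ↔
      (J (ρ a) = m ∧ J (ρ a') = m ∧ ∀ i, i ≠ a → i ≠ a' → J (ρ i) = K i) := by
    intro m
    constructor
    · intro h
      refine ⟨?_, ?_, fun i h1 h2 => ?_⟩
      · have := h a
        rwa [Function.update_of_ne haa, Function.update_self] at this
      · have := h a'
        rwa [Function.update_self] at this
      · have := h i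
        rwa [Function.update_of_ne h2, Function.update_of_ne h1] at this
    · rintro ⟨h1, h2, h3⟩ i
      by_cases hi : i = a'
      · subst hi
        rw [Function.update_self]; exact h2
      · rw [Function.update_of_ne hi]
        by_cases hi' : i = a
        · subst hi'
          rw [Function.update_self]; exact h1
        · rw [Function.update_of_ne hi']
          exact h3 i hi' hi
  rw [Finset.sum_eq_single (J (ρ a))]
  · unfold ind
    simp only [c1, c2, c3, true_and]
    by_cases h1 : ∀ j, J (σ j) = J j <;> by_cases h2 : J (ρ a) = J (ρ a') <;>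
      by_cases h3 : ∀ i, i ≠ a → i ≠ a' → J (ρ i) = K i <;>
      simp [h1, h2, eq_comm]
  · intro m _ hm
    unfold ind
    rw [if_neg]
    rw [c3]
    exact fun h => hm h.1.symm
  · intro h
    exact absurd (Finset.mem_univ _) h

end action

/-! ### polynomials of an endomorphism -/

section poly
open Polynomial

variable {V W : Type*} [AddCommGroup V] [Module ℂ V] [AddCommGroup W] [Module ℂ W]

theorem aeval_eig (T : Module.End ℂ V) (c : ℂ) (v : V) (h : T v = c • v) (p : ℂ[X]) :
    aeval T p v = p.eval c • v := by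
  have hpow : ∀ n : ℕ, (T ^ n) v = c ^ n • v := by
    intro n
    induction n with
    | zero => simp
    | succ n ih =>
      rw [pow_succ', Module.End.mul_apply, ih, map_smul, h, smul_smul, pow_succ]
  induction p using Polynomial.induction_on' with
  | add p q hp hq => rw [map_add, LinearMap.add_apply, hp, hq, eval_add, add_smul]
  | monomial n a =>
    rw [aeval_monomial, eval_monomial, Module.End.mul_apply, hpow, Module.algebraMap_end_apply,
      smul_smul]

theorem aeval_mem (T : Module.End ℂ V) (S : Submodule ℂ V) (h : ∀ v ∈ S, T v ∈ S) (p : ℂ[X])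
    {v : V} (hv : v ∈ S) : aeval T p v ∈ S := by
  have hpow : ∀ n : ℕ, (T ^ n) v ∈ S := by
    intro n
    induction n with
    | zero => simpa using hv
    | succ n ih =>
      rw [pow_succ', Module.End.mul_apply]
      exact h _ ih
  induction p using Polynomial.induction_on' with
  | add p q hp hq => rw [map_add, LinearMap.add_apply]; exact S.add_mem hp hq
  | monomial n a =>
    rw [aeval_monomial, Module.End.mul_apply, Module.algebraMap_end_apply]
    exact S.smul_mem _ (hpow n)

theorem aeval_inter (T : Module.End ℂ V) (T' : Module.End ℂ W) (c : V →ₗ[ℂ] W)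
    (h : ∀ v, c (T v) = T' (c v)) (p : ℂ[X]) (v : V) : c (aeval T p v) = aeval T' p (c v) := by
  have hpow : ∀ n : ℕ, c ((T ^ n) v) = (T' ^ n) (c v) := by
    intro n
    induction n with
    | zero => simp
    | succ n ih =>
      rw [pow_succ', Module.End.mul_apply, h, ih, pow_succ', Module.End.mul_apply]
  induction p using Polynomial.induction_on' with
  | add p q hp hq =>
    rw [map_add, LinearMap.add_apply, map_add, hp, hq, map_add, LinearMap.add_apply]
  | monomial n a =>
    rw [aeval_monomial, aeval_monomial, Module.End.mul_apply, Module.algebraMap_end_apply,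
      map_smul, hpow, Module.End.mul_apply, Module.algebraMap_end_apply]

end poly

/-! ### the theorem -/

theorem g1 : S_g2 → S_g1 := by
  intro hg2 n k p l X hX hXX htr hkp hkn M hM hE
  by_contra hnot
  obtain ⟨m, hmM, hmI⟩ := SetLike.not_le_iff_exists.1 hnot
  have hcompl := insC_compl (n := n) (k := k) l
  set O : Submodule ℂ ((Fin k → Fin n) → ℂ) := (Bf n k).orthogonal (insC n k l) with hO
  set M' : Submodule ℂ ((Fin k → Fin n) → ℂ) := O ⊓ (M ⊔ insC n k l) with hM'
  -- stable
  have hst : ∀ Z : Matrix (Fin n) (Fin n) ℂ, Zᵀ = -Z → ∀ s ∈ M', actL Z s ∈ M' := by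
    intro Z hZ s hs
    rw [hM', Submodule.mem_inf] at hs ⊢
    refine ⟨by rw [actL_apply]; exact orth_act Z hZ hs.1, ?_⟩
    obtain ⟨a, ha, b, hb, rfl⟩ := Submodule.mem_sup.1 hs.2
    rw [map_add, actL_apply, actL_apply]
    exact Submodule.add_mem_sup (hM Z hZ a ha) (insC_act Z hZ hb)
  -- nonzero
  have hne : ∃ b ∈ M', b ≠ 0 := by
    have htop : m ∈ insC n k l ⊔ O := by rw [hcompl.sup_eq_top]; trivial
    obtain ⟨i, hi, o, ho, hio⟩ := Submodule.mem_sup.1 htop
    refine ⟨o, ⟨ho, ?_⟩, ?_⟩
    · have : o = m - i := by rw [← hio]; abel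
      rw [this]
      exact Submodule.sub_mem _ (Submodule.mem_sup_left hmM) (Submodule.mem_sup_right hi)
    · rintro rfl
      apply hmI
      rw [← hio, add_zero]
      exact hi
  let Q : ℕ → Prop := fun l' => ∃ (r : ℕ) (σ : Fin k → Fin k) (ρ : Fin r → Fin k),
    r + 2 * l' = k ∧ (∀ j, σ (σ j) = j) ∧ Function.Injective ρ ∧
      (∀ j, σ j = j ↔ ∃ i, ρ i = j) ∧ ∃ b ∈ M', cn σ ρ b ≠ 0
  have hQ0 : Q 0 := by
    obtain ⟨b, hb, hb0⟩ := hne
    refine ⟨k, id, id, by ring, fun _ => rfl, Function.injective_id,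
      fun j => ⟨fun _ => ⟨j, rfl⟩, fun _ => rfl⟩, b, hb, ?_⟩
    intro h
    apply hb0
    funext K
    have h1 := congrFun h K
    rw [cn_apply, Finset.sum_eq_single K] at h1
    · simpa [dl, ind] using h1
    · intro J _ hJ
      have : ind (id : Fin k → Fin k) K J = 0 := by
        unfold ind
        rw [if_neg]
        intro h2
        exact hJ (funext h2)
      rw [this]
      ring
    · intro h2
      exact absurd (Finset.mem_univ _) h2
  have hex : ∃ l', Q l' ∧ ¬ Q (l' + 1) := by
    by_contra hc
    push Not at hc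
    have hall : ∀ l', Q l' := by
      intro l'
      induction l' with
      | zero => exact hQ0
      | succ l' ih => exact hc l' ih
    obtain ⟨r, _, _, h, _⟩ := hall (k + 1)
    omega
  obtain ⟨l', ⟨r, σ, ρ, hr, hσ, hρ, hfix, b, hb, hb0⟩, hnQ⟩ := hex
  have hl' : l' < l := by
    by_contra hc
    push Not at hc
    apply hb0
    have hc1 : (univ.filter fun j => σ j = j).card = r := by
      have : (univ.filter fun j => σ j = j) = univ.image ρ := by
        ext j
        rw [Finset.mem_filter, Finset.mem_image, hfix]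
        simp
      rw [this, Finset.card_image_of_injective _ hρ, Finset.card_univ, Fintype.card_fin]
    have hc2 := Finset.card_filter_add_card_filter_not (s := (univ : Finset (Fin k)))
      (fun j => σ j = j)
    rw [Finset.card_univ, Fintype.card_fin] at hc2
    have hc3 : 2 * l ≤ (univ.filter fun j => σ j ≠ j).card := by
      have : (univ.filter fun j => ¬ σ j = j).card = (univ.filter fun j => σ j ≠ j).card := rfl
      omega
    exact cn_orth σ hσ ρ hfix b hc3 hb.1
  obtain ⟨s, ⟨c, hcM, hcs⟩, hs0, hXs⟩ := hg2 n r p X hX hXX htr (by omega) (by omega)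
    (M'.map (cn σ ρ))
    (by
      rintro Z hZ _ ⟨c, hc, rfl⟩
      refine ⟨act Z c, ?_, cn_act Z hZ σ hσ ρ hρ hfix c⟩
      have := hst Z hZ c hc
      rwa [actL_apply] at this)
    (by
      rintro _ ⟨c, hc, rfl⟩ a a' haa K
      by_contra hne'
      obtain ⟨r', σ', ρ', h1, h2, h3, h4, h5⟩ := more σ hσ ρ hρ hfix c a a' haa K hne'
      exact hnQ ⟨r', σ', ρ', by omega, h2, h3, h4, c, hc, h5⟩)
    (by
      intro h
      apply hb0
      have h1 : cn σ ρ b ∈ M'.map (cn σ ρ) := ⟨b, hb, rfl⟩
      rw [h] at h1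
      exact (Submodule.mem_bot _).1 h1)
  -- the polynomial
  set P0 : Polynomial ℂ := ∏ a ∈ (Finset.Icc (-(k : ℤ)) k).erase (r : ℤ),
    (Polynomial.X - Polynomial.C (a : ℂ)) with hP0
  have hmul : (Polynomial.X - Polynomial.C (r : ℂ)) * P0 = pp k := by
    have hmem : (r : ℤ) ∈ Finset.Icc (-(k : ℤ)) k := Finset.mem_Icc.2 ⟨by omega, by omega⟩
    have := Finset.mul_prod_erase (Finset.Icc (-(k : ℤ)) k)
      (fun a : ℤ => (Polynomial.X - Polynomial.C (a : ℂ) : Polynomial ℂ)) hmem
    unfold pp
    rw [← this]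
    push_cast
    rfl
  have hP0r : P0.eval (r : ℂ) ≠ 0 := by
    rw [hP0, Polynomial.eval_prod, Finset.prod_ne_zero_iff]
    intro a ha h
    rw [Finset.mem_erase] at ha
    apply ha.1
    simp only [Polynomial.eval_sub, Polynomial.eval_X, Polynomial.eval_C] at h
    have h1 : (r : ℂ) = (a : ℂ) := sub_eq_zero.1 h
    exact_mod_cast h1.symm
  set P : Polynomial ℂ := Polynomial.C (P0.eval (r : ℂ))⁻¹ * P0 with hP
  have hPr : P.eval (r : ℂ) = 1 := by
    rw [hP, Polynomial.eval_mul, Polynomial.eval_C, inv_mul_cancel₀ hP0r]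
  have heig : ∀ v : (Fin k → Fin n) → ℂ,
      actL X (Polynomial.aeval (actL X) P v) = (r : ℂ) • Polynomial.aeval (actL X) P v := by
    intro v
    have h1 : Polynomial.aeval (actL (k := k) X)
        ((Polynomial.X - Polynomial.C (r : ℂ)) * P) = 0 := by
      have : (Polynomial.X - Polynomial.C (r : ℂ)) * P =
          Polynomial.C (P0.eval (r : ℂ))⁻¹ * pp k := by
        rw [← hmul, hP]; ring
      rw [this, map_mul, actL_pp X hXX, mul_zero]
    have h2 := congrArg (fun T : Module.End ℂ ((Fin k → Fin n) → ℂ) => T v) h1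
    simp only [map_mul, map_sub, Polynomial.aeval_X, Polynomial.aeval_C] at h2
    rw [Module.End.mul_apply, LinearMap.sub_apply, Module.algebraMap_end_apply] at h2
    exact sub_eq_zero.1 h2
  set e := Polynomial.aeval (actL X) P c with he
  have heM : e ∈ M' := aeval_mem _ M' (hst X hX) P hcM
  have hes : cn σ ρ e = s := by
    rw [he, aeval_inter (actL X) (actL X) (cn σ ρ)
      (fun v => by rw [actL_apply, actL_apply, cn_act X hX σ hσ ρ hρ hfix]) P c, hcs,
      aeval_eig (actL X) (r : ℂ) s (by rw [actL_apply, hXs]) P, hPr, one_smul]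
  have hee : Polynomial.aeval (actL X) P e = e := by
    rw [aeval_eig (actL X) (r : ℂ) e (heig c) P, hPr, one_smul]
  obtain ⟨a, ha, i, hi, hai⟩ := Submodule.mem_sup.1 heM.2
  have ha1 : Polynomial.aeval (actL X) P a ∈ M :=
    aeval_mem _ M (fun v hv => by rw [actL_apply]; exact hM X hX v hv) P ha
  have hi1 : Polynomial.aeval (actL X) P i ∈ insC n k l :=
    aeval_mem _ _ (fun v hv => by rw [actL_apply]; exact insC_act X hX hv) P hi
  have ha0 : Polynomial.aeval (actL X) P a = 0 := by
    refine hE (r : ℤ) ?_ _ ha1 ?_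
    · rw [abs_of_nonneg (by positivity)]
      omega
    · rw [← actL_apply, heig]
      push_cast
      rfl
  have heI : e ∈ insC n k l := by
    rw [← hee, ← hai, map_add, ha0, zero_add]
    exact hi1
  have he0 : e = 0 := by
    have := Submodule.disjoint_def.1 hcompl.disjoint e heI heM.1
    exact this
  apply hs0
  rw [← hes, he0, map_zero]

end

end Pool.Agent.W392.PG

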